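import Pool.Agent.H752.GM.Stubs
import Pool.Agent.H620R2.GaugeR.R12

/-!
# Task M5 (project GM of helper752): the language `zLang` is in `ZPP` (helper819)
-/

namespace Pool.Agent.H752.GM

open Pool.Agent.NPC Pool.Agent.H620R2.Gauge Finset H568R2 MeasureTheory

namespace M5

/-- the questions -/
def Q (b : Bool) (y : List Bool) : List (List Bool) :=
  pairBits (unpair y).2 (b :: (unpair y).1.take (kk (unpair y).2)) ::
    (List.range (nm (unpair y).2)).map
      (fun i => mkS (unpair y).2 (min i (nm (unpair y).2)))

/-- the output for the language -/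
def H1 (p : List Bool × List Bool) : List Bool :=
  if p.2.all (fun b => b) = true then [true] else []

/-- the output for the complement -/
def H0 (p : List Bool × List Bool) : List Bool :=
  if (p.2.head?.getD false || !(p.2.tail.all (fun b => b))) = true then [true] else []

theorem upoly_nm : UPoly (fun x : List Bool => nm x) := by
  unfold nm
  exact ((UPoly.const 3).mul (UPoly.length NPC.Poly.id)).add (UPoly.const 10)

theorem poly_replicate {α : Type} [TEnc α] {n : α → ℕ} (hn : UPoly n) :
    Poly (fun a => List.replicate (n a) false) := by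
  refine (NPC.Poly.map (F := fun _ _ => false) hn (NPC.Poly.const false)).congr fun a => ?_
  rw [List.map_replicate]

theorem poly_Q (b : Bool) : Poly (Q b) := by
  have hw : Poly (fun y => (unpair y).1) := Poly.fst poly_unpair
  have hx : Poly (fun y => (unpair y).2) := Poly.snd poly_unpair
  have ht : Poly (fun y => (unpair y).1.take (kk (unpair y).2)) :=
    R12.poly_take hw (R12.upoly_kk.comp hx)
  have hn : UPoly (fun y => nm (unpair y).2) := upoly_nm.comp hx
  have hr : Poly (fun y => List.range (nm (unpair y).2)) := hn.range
  have hx2 : Poly (fun p : List Bool × ℕ => (unpair p.1).2) := hx.comp (Poly.fst Poly.id)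
  have hn2 : UPoly (fun p : List Bool × ℕ => nm (unpair p.1).2) := upoly_nm.comp hx2
  have hm : UPoly (fun p : List Bool × ℕ => min p.2 (nm (unpair p.1).2)) :=
    UPoly.of_le (Poly.min (Poly.snd Poly.id) hn2.toPoly) hn2 (fun _ => min_le_right _ _)
  have hk : UPoly (fun p : List Bool × ℕ => kk (unpair p.1).2) := R12.upoly_kk.comp hx2
  have hmk : Poly (fun p : List Bool × ℕ =>
      mkS (unpair p.1).2 (min p.2 (nm (unpair p.1).2))) := by
    unfold mkS
    exact H622R2.poly_pairBits hx2 (poly_replicate ((hk.add (UPoly.const 2)).add hm))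
  exact Poly.cons (H622R2.poly_pairBits hx (Poly.cons (NPC.Poly.const b) ht))
    (NPC.Poly.map (F := fun y i => mkS (unpair y).2 (min i (nm (unpair y).2))) hr hmk)

theorem poly_H1 : Poly H1 := by
  unfold H1
  exact Poly.ite (Poly.decide_bool (Poly.all (p := fun _ b => b) (Poly.snd Poly.id)
    (Poly.snd Poly.id))) (NPC.Poly.const _) (NPC.Poly.const _)

theorem poly_H0 : Poly H0 := by
  unfold H0
  exact Poly.ite (Poly.decide_bool (Poly.or (Poly.head?_getD (Poly.snd Poly.id) false)
    (Poly.not (Poly.all (p := fun _ b => b) (Poly.tail (Poly.snd Poly.id))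
    (Poly.snd Poly.id))))) (NPC.Poly.const _) (NPC.Poly.const _)

/-- the algorithms -/
def V1 (A : Oracle) (y : List Bool) : List Bool := H1 (y, (Q true y).map A)

def V0 (A : Oracle) (y : List Bool) : List Bool := H0 (y, (Q false y).map A)

theorem marks_iff (A : Oracle) (x : List Bool) :
    (((List.range (nm x)).map (fun i => mkS x (min i (nm x)))).map A).all (fun b => b) = true ↔
      Marked A x := by
  rw [List.all_eq_true]
  unfold Marked
  constructor
  · intro h i hi
    apply h
    rw [List.map_map, List.mem_map]
    refine ⟨i, List.mem_range.mpr hi, ?_⟩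
    rw [Function.comp, min_eq_left hi.le]
  · intro h b hb
    rw [List.map_map, List.mem_map] at hb
    obtain ⟨i, hi, rfl⟩ := hb
    have hi' := List.mem_range.mp hi
    rw [Function.comp, min_eq_left hi'.le]
    exact h i hi'

theorem ite_iff (b : Bool) : (if b = true then [true] else []) = [true] ↔ b = true := by
  cases b <;> simp

theorem V1_iff (A : Oracle) (w x : List Bool) :
    V1 A (pairBits w x) = [true] ↔
      (Marked A x ∧ A (pairBits x (true :: w.take (kk x))) = true) := by
  have h1 : Q true (pairBits w x) = pairBits x (true :: w.take (kk x)) ::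
      (List.range (nm x)).map (fun i => mkS x (min i (nm x))) := by
    unfold Q
    rw [unpair_pairBits]
  unfold V1 H1
  rw [h1, List.map_cons, ite_iff, List.all_cons, Bool.and_eq_true, marks_iff]
  exact and_comm

theorem V0_iff (A : Oracle) (w x : List Bool) :
    V0 A (pairBits w x) = [true] ↔
      (¬ Marked A x ∨ A (pairBits x (false :: w.take (kk x))) = true) := by
  have h1 : Q false (pairBits w x) = pairBits x (false :: w.take (kk x)) ::
      (List.range (nm x)).map (fun i => mkS x (min i (nm x))) := by
    unfold Q
    rw [unpair_pairBits]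
  unfold V0 H0
  rw [h1, List.map_cons, ite_iff, List.head?_cons, Option.getD_some, List.tail_cons,
    Bool.or_eq_true, Bool.not_eq_true', ← Bool.not_eq_true, marks_iff]
  exact or_comm

theorem isRP_of {A : Oracle} {V : List Bool → List Bool} (hV : IsFP A V)
    {P : List Bool → List Bool → Prop}
    (hP : ∀ w x, V (pairBits w x) = [true] ↔ P x (w.take (kk x))) {L : Set (List Bool)}
    (h1 : ∀ x ∈ L, 2 ^ kk x ≤ 2 * Nat.card {w : Fin (kk x) → Bool // P x (List.ofFn w)})
    (h2 : ∀ x ∉ L, ∀ w : List Bool, w.length = kk x → ¬ P x w) : IsRP A L := by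
  refine ⟨V, R12.pp, hV, fun x => ⟨fun hx => ?_, fun hx => ?_⟩⟩
  · have h1 := h1 x hx
    obtain ⟨d, hd⟩ := Nat.exists_eq_add_of_le (R12.kk_le x)
    have h2 := R12.count (fun w => P x w) (kk x) d
    unfold accPr
    rw [hd]
    have h3 : Nat.card {w : Fin (kk x + d) → Bool // V (pairBits (List.ofFn w) x) = [true]} =
        Nat.card {w : Fin (kk x + d) → Bool // P x ((List.ofFn w).take (kk x))} := by
      apply Nat.card_congr
      exact Equiv.subtypeEquivRight fun w => hP (List.ofFn w) x
    rw [h3, div_le_div_iff₀ (by norm_num) (by positivity)]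
    have h4 : 2 ^ (kk x + d) ≤ 2 * Nat.card {w : Fin (kk x + d) → Bool //
        P x ((List.ofFn w).take (kk x))} := by
      calc 2 ^ (kk x + d) = 2 ^ kk x * 2 ^ d := pow_add _ _ _
        _ ≤ (2 * Nat.card {w : Fin (kk x) → Bool // P x (List.ofFn w)}) * 2 ^ d :=
          Nat.mul_le_mul_right _ h1
        _ ≤ _ := by rw [mul_assoc]; exact Nat.mul_le_mul_left _ h2
    have h5 : (2 : ℝ) ^ (kk x + d) ≤ 2 * (Nat.card {w : Fin (kk x + d) → Bool //
        P x ((List.ofFn w).take (kk x))} : ℝ) := by exact_mod_cast h4
    linarith
  · unfold accPr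
    have h1 : IsEmpty {w : Fin (R12.pp.eval x.length) → Bool //
        V (pairBits (List.ofFn w) x) = [true]} := by
      constructor
      rintro ⟨w, hw⟩
      rw [hP] at hw
      refine h2 x hx _ ?_ hw
      rw [List.length_take, List.length_ofFn, min_eq_left (R12.kk_le x)]
    rw [Nat.card_of_isEmpty]
    simp

end M5

open M5 in
theorem t_zmem : St_zmem := by
  intro A hA
  constructor
  · refine isRP_of (V := V1 A) (IsFP.tt (poly_Q true) poly_H1)
      (P := fun x w => Marked A x ∧ A (pairBits x (true :: w)) = true) (V1_iff A) ?_ ?_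
    · rintro x ⟨hm, w, hw, hwA⟩
      obtain ⟨b, hb1, hb2⟩ := hA x hm
      cases b with
      | false =>
        have := hb2 w hw
        rw [Bool.not_false, hwA] at this
        exact absurd this (by simp)
      | true =>
        refine hb1.trans (Nat.mul_le_mul_left 2 (le_of_eq ?_))
        apply Nat.card_congr
        exact Equiv.subtypeEquivRight fun w => ⟨fun h => ⟨hm, h⟩, fun h => h.2⟩
    · intro x hx w hw hP
      exact hx ⟨hP.1, w, hw, hP.2⟩
  · refine isRP_of (V := V0 A) (IsFP.tt (poly_Q false) poly_H0)
      (P := fun x w => ¬ Marked A x ∨ A (pairBits x (false :: w)) = true) (V0_iff A) ?_ ?_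
    · intro x hx
      have hx : ¬ (x ∈ zLang A) := hx
      by_cases hm : Marked A x
      · obtain ⟨b, hb1, hb2⟩ := hA x hm
        cases b with
        | false =>
          refine hb1.trans (Nat.mul_le_mul_left 2 (le_of_eq ?_))
          apply Nat.card_congr
          exact Equiv.subtypeEquivRight fun w =>
            ⟨fun h => Or.inr h, fun h => h.resolve_left (fun h' => h' hm)⟩
        | true =>
          exfalso
          have h2 : 0 < 2 ^ kk x := by positivity
          have h3 : 0 < Nat.card {w : Fin (kk x) → Bool //
              A (pairBits x (true :: List.ofFn w)) = true} := by omega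
          obtain ⟨⟨w, hw⟩⟩ := (Nat.card_pos_iff.mp h3).1
          exact hx ⟨hm, List.ofFn w, List.length_ofFn, hw⟩
      · have h3 : Nat.card {w : Fin (kk x) → Bool //
            (¬ Marked A x ∨ A (pairBits x (false :: List.ofFn w)) = true)} = 2 ^ kk x := by
          have e : Nat.card {w : Fin (kk x) → Bool //
            (¬ Marked A x ∨ A (pairBits x (false :: List.ofFn w)) = true)} =
              Nat.card (Fin (kk x) → Bool) := by
            apply Nat.card_congr
            exact Equiv.subtypeUnivEquiv fun w => Or.inl hm
          rw [e, Nat.card_eq_fintype_card, Fintype.card_fun, Fintype.card_bool, Fintype.card_fin]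
        rw [h3]
        omega
    · intro x hx w hw hP
      have hx : x ∈ zLang A := by
        by_contra h
        exact hx h
      obtain ⟨hm, w', hw', hwA⟩ := hx
      rcases hP with hP | hP
      · exact hP hm
      · obtain ⟨b, hb1, hb2⟩ := hA x hm
        cases b with
        | false =>
          have := hb2 w' hw'
          rw [Bool.not_false, hwA] at this
          exact absurd this (by simp)
        | true =>
          have := hb2 w hw
          rw [Bool.not_true, hP] at this
          exact absurd this (by simp)

end Pool.Agent.H752.GM
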